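import Mathlib

/-! Vaguely null Fourier transformable measures whose Fourier transforms converge vaguely to a
nonzero measure. -/

open MeasureTheory Complex Set Filter Topology
open scoped Real FourierTransform

noncomputable section

namespace Pool.Agent.Results.MP_831e37_an.NullWithNonNullTransforms

/-- A complex Radon measure `μ = h σ` on `E`: a positive measure `σ`, finite on compact sets, and a
locally `σ`-integrable complex density `h`. Its total variation measure is `|h| σ`. -/
structure ComplexRadon (E : Type*) [TopologicalSpace E] [MeasurableSpace E] where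
  /-- the positive measure `σ` -/
  base : Measure E
  /-- the density `h` -/
  dens : E → ℂ
  finite_on_compacts : ∀ K : Set E, IsCompact K → base K < ⊤
  locallyIntegrable : LocallyIntegrable dens base

variable {E : Type*} [TopologicalSpace E] [MeasurableSpace E]

/-- `μ(f) = ∫ f dμ = ∫ f h dσ`. -/
def ComplexRadon.eval (μ : ComplexRadon E) (f : E → ℂ) : ℂ := ∫ x, f x * μ.dens x ∂μ.base

/-- `f ∈ L¹(|μ|)`. -/
def ComplexRadon.MemL1 (μ : ComplexRadon E) (f : E → ℂ) : Prop :=
  Integrable (fun x => f x * μ.dens x) μ.base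

/-- `f ∈ C_c(E)`. -/
def IsCc (f : E → ℂ) : Prop := Continuous f ∧ HasCompactSupport f

/-- Vague convergence of a sequence of complex Radon measures. -/
def VagueTendsto (ν : ℕ → ComplexRadon E) (μ : ComplexRadon E) : Prop :=
  ∀ f : E → ℂ, IsCc f → Tendsto (fun n => (ν n).eval f) atTop (𝓝 (μ.eval f))

/-- The zero measure, in the sense that every `f ∈ C_c(E)` has integral zero. -/
def ComplexRadon.IsZero (μ : ComplexRadon E) : Prop := ∀ f : E → ℂ, IsCc f → μ.eval f = 0

/-- `K₂(ℝᵈ)`, the span of the convolutions `f * h` with `f, h ∈ C_c(ℝᵈ)`. -/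
def K2 (d : ℕ) : Submodule ℂ (EuclideanSpace ℝ (Fin d) → ℂ) :=
  Submodule.span ℂ {g | ∃ f h : EuclideanSpace ℝ (Fin d) → ℂ, IsCc f ∧ IsCc h ∧
    g = MeasureTheory.convolution f h (ContinuousLinearMap.mul ℂ ℂ) volume}

/-- `ν` is Fourier transformable with Fourier transform `ν'`: for every `g ∈ K₂(ℝᵈ)` the inverse
Fourier transform `ǧ (x) = ∫ g(t) e^{2πi x·t} dt` is in `L¹(|ν'|)` and `ν(g) = ν'(ǧ)`. -/
def IsFourierTransform {d : ℕ} (ν ν' : ComplexRadon (EuclideanSpace ℝ (Fin d))) : Prop :=
  ∀ g ∈ K2 d, ν'.MemL1 (𝓕⁻ g) ∧ ν.eval g = ν'.eval (𝓕⁻ g)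

/-! ### Elements of `K₂` are integrable -/

lemma integrable_of_mem_K2 {d : ℕ} (g : EuclideanSpace ℝ (Fin d) → ℂ) (hg : g ∈ K2 d) :
    Integrable g := by
  refine Submodule.span_induction (p := fun g _ => Integrable g volume) ?_ ?_ ?_ ?_ hg
  · rintro g ⟨f, h, hf, hh, rfl⟩
    have h1 : Continuous (MeasureTheory.convolution f h (ContinuousLinearMap.mul ℂ ℂ) volume) :=
      hh.2.continuous_convolution_right _ (hf.1.locallyIntegrable) hh.1
    have h2 : HasCompactSupport
        (MeasureTheory.convolution f h (ContinuousLinearMap.mul ℂ ℂ) volume) :=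
      hf.2.convolution _ hh.2
    exact h1.integrable_of_hasCompactSupport h2
  · exact integrable_zero _ _ _
  · intro x y _ _ hx hy
    exact hx.add hy
  · intro a x _ hx
    exact hx.smul a

/-! ### The polynomials -/

/-- The polynomial `1 - (1 - (1 - X)^(K+1))^N`. -/
def poly (K N : ℕ) : Polynomial ℂ :=
  1 - (1 - (1 - Polynomial.X) ^ (K + 1)) ^ N

lemma poly_coeff (K N m : ℕ) (hm : m < N) :
    (poly K N).coeff m = if m = 0 then 1 else 0 := by
  have h1 : (Polynomial.X : Polynomial ℂ) ∣ 1 - (1 - Polynomial.X) ^ (K + 1) := by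
    have := sub_dvd_pow_sub_pow (1 : Polynomial ℂ) (1 - Polynomial.X) (K + 1)
    simpa using this
  have h2 : (Polynomial.X : Polynomial ℂ) ^ N ∣ (1 - (1 - Polynomial.X) ^ (K + 1)) ^ N :=
    pow_dvd_pow_of_dvd h1 N
  rw [Polynomial.X_pow_dvd_iff] at h2
  unfold poly
  rw [Polynomial.coeff_sub, h2 m hm, sub_zero, Polynomial.coeff_one]

lemma norm_one_sub_pow_le (u : ℂ) (N : ℕ) : ‖1 - (1 - u) ^ N‖ ≤ (1 + ‖u‖) ^ N - 1 := by
  induction N with
  | zero => simp
  | succ N ih =>
    have e : 1 - (1 - u) ^ (N + 1) = (1 - (1 - u) ^ N) + (1 - u) ^ N * u := by ring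
    rw [e]
    have h1 : ‖(1 - u) ^ N‖ ≤ (1 + ‖u‖) ^ N := by
      rw [norm_pow]
      apply pow_le_pow_left₀ (norm_nonneg _)
      calc ‖1 - u‖ ≤ ‖(1 : ℂ)‖ + ‖u‖ := norm_sub_le _ _
        _ = 1 + ‖u‖ := by simp
    calc ‖(1 - (1 - u) ^ N) + (1 - u) ^ N * u‖ ≤ ‖1 - (1 - u) ^ N‖ + ‖(1 - u) ^ N * u‖ :=
          norm_add_le _ _
      _ ≤ ((1 + ‖u‖) ^ N - 1) + (1 + ‖u‖) ^ N * ‖u‖ := by
          rw [norm_mul]
          gcongr
      _ = (1 + ‖u‖) ^ (N + 1) - 1 := by ring

lemma poly_eval_small (K N : ℕ) (w : ℂ) (hw : ‖1 - w‖ ≤ 1 / 2) :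
    ‖(poly K N).eval w‖ ≤ (1 + (1 / 2 : ℝ) ^ (K + 1)) ^ N - 1 := by
  have e : (poly K N).eval w = 1 - (1 - (1 - w) ^ (K + 1)) ^ N := by
    simp [poly]
  rw [e]
  refine (norm_one_sub_pow_le _ N).trans ?_
  have : ‖(1 - w) ^ (K + 1)‖ ≤ (1 / 2 : ℝ) ^ (K + 1) := by
    rw [norm_pow]
    exact pow_le_pow_left₀ (norm_nonneg _) hw _
  gcongr

lemma exists_K (N : ℕ) (ε : ℝ) (hε : 0 < ε) :
    ∃ K : ℕ, (1 + (1 / 2 : ℝ) ^ (K + 1)) ^ N - 1 < ε := by
  have h1 : Tendsto (fun K : ℕ => (1 / 2 : ℝ) ^ (K + 1)) atTop (𝓝 0) :=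
    (tendsto_pow_atTop_nhds_zero_of_lt_one (by norm_num) (by norm_num)).comp (tendsto_add_atTop_nat 1)
  have h2 : Tendsto (fun K : ℕ => (1 + (1 / 2 : ℝ) ^ (K + 1)) ^ N - 1) atTop (𝓝 0) := by
    have := ((h1.const_add 1).pow N).sub_const 1
    simpa using this
  exact ((tendsto_order.1 h2).2 ε hε).exists

/-- The choice of `K`. -/
def Kn (n : ℕ) : ℕ := (exists_K (16 * (n + 1) ^ 2) (1 / (n + 1 : ℝ)) (by positivity)).choose

lemma Kn_spec (n : ℕ) :
    (1 + (1 / 2 : ℝ) ^ (Kn n + 1)) ^ (16 * (n + 1) ^ 2) - 1 < 1 / (n + 1 : ℝ) :=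
  (exists_K (16 * (n + 1) ^ 2) (1 / (n + 1 : ℝ)) (by positivity)).choose_spec

/-- The `n`-th polynomial. -/
def Pn (n : ℕ) : Polynomial ℂ := poly (Kn n) (16 * (n + 1) ^ 2)

variable {d : ℕ}

/-- The step of the frequencies. -/
def step (n : ℕ) : ℝ := 1 / (16 * (n + 1))

lemma step_pos (n : ℕ) : 0 < step n := by unfold step; positivity

/-- The trigonometric polynomial. -/
def rho (i : Fin d) (n : ℕ) (x : EuclideanSpace ℝ (Fin d)) : ℂ :=
  (Pn n).eval (Complex.exp (((2 * π * (step n * x i) : ℝ) : ℂ) * Complex.I))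

lemma continuous_rho (i : Fin d) (n : ℕ) : Continuous (rho i n) := by
  unfold rho
  apply (Pn n).continuous.comp
  have : Continuous fun x : EuclideanSpace ℝ (Fin d) => x i := by fun_prop
  fun_prop

lemma rho_small (i : Fin d) (n : ℕ) (x : EuclideanSpace ℝ (Fin d)) (hx : ‖x‖ ≤ n) :
    ‖rho i n x‖ ≤ 1 / (n + 1 : ℝ) := by
  unfold rho Pn
  refine (poly_eval_small _ _ _ ?_).trans (Kn_spec n).le
  have h1 : |x i| ≤ n := by
    have := EuclideanSpace.norm_eq x
    have h2 : ‖x i‖ ≤ ‖x‖ := PiLp.norm_apply_le x i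
    rw [Real.norm_eq_abs] at h2
    linarith
  rw [norm_sub_rev]
  have h3 := Real.norm_exp_I_mul_ofReal_sub_one_le (x := 2 * π * (step n * x i))
  rw [mul_comm Complex.I] at h3
  refine h3.trans ?_
  rw [Real.norm_eq_abs, abs_mul (2 * π), abs_mul (step n),
    abs_of_pos (by positivity : (0 : ℝ) < 2 * π), abs_of_pos (step_pos n)]
  unfold step
  have hpi : π < 3.15 := Real.pi_lt_d2
  have h4 : 1 / (16 * ((n : ℝ) + 1)) * |x i| ≤ 1 / 16 := by
    rw [div_mul_eq_mul_div, one_mul, div_le_div_iff₀ (by positivity) (by norm_num)]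
    linarith
  have h5 : 0 ≤ 1 / (16 * ((n : ℝ) + 1)) * |x i| := by positivity
  nlinarith [Real.pi_pos]

/-- The frequency points. -/
def freq (i : Fin d) (n m : ℕ) : EuclideanSpace ℝ (Fin d) := EuclideanSpace.single i (m * step n)

lemma freq_injective (i : Fin d) (n : ℕ) : Function.Injective (freq i n) := by
  intro a b hab
  have h1 : (freq i n a) i = (freq i n b) i := by rw [hab]
  simp only [freq, PiLp.single_apply, if_true] at h1
  have := mul_right_cancel₀ (step_pos n).ne' h1
  exact_mod_cast this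

/-- the degree bound -/
def Sn (n : ℕ) : Finset ℕ := (Pn n).support ∪ {0}

lemma rho_eq_sum (i : Fin d) (n : ℕ) (x : EuclideanSpace ℝ (Fin d)) :
    rho i n x = ∑ m ∈ Sn n, (Pn n).coeff m *
      Complex.exp (((2 * π * inner ℝ x (freq i n m) : ℝ) : ℂ) * Complex.I) := by
  unfold rho
  rw [Polynomial.eval_eq_sum, Polynomial.sum,
    Finset.sum_subset (Finset.subset_union_left : (Pn n).support ⊆ Sn n)]
  · apply Finset.sum_congr rfl
    intro m _
    congr 1
    rw [← Complex.exp_nat_mul]
    congr 1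
    simp only [freq, EuclideanSpace.inner_single_right]
    push_cast
    simp
    ring
  · intro m _ hm
    rw [Polynomial.notMem_support_iff.1 hm, zero_mul]

/-- `ν_n = ρ_n dx`. -/
def nu (i : Fin d) (n : ℕ) : ComplexRadon (EuclideanSpace ℝ (Fin d)) where
  base := volume
  dens := rho i n
  finite_on_compacts := fun _ hK => hK.measure_lt_top
  locallyIntegrable := (continuous_rho i n).locallyIntegrable

/-- The sum of Dirac masses carrying the transform. -/
def baseSum (i : Fin d) (n : ℕ) : Measure (EuclideanSpace ℝ (Fin d)) :=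
  ∑ m ∈ Sn n, Measure.dirac (freq i n m)

/-- The weights at the Dirac masses. -/
def weight (i : Fin d) (n : ℕ) (y : EuclideanSpace ℝ (Fin d)) : ℂ :=
  ∑ m ∈ Sn n, if y = freq i n m then (Pn n).coeff m else 0

lemma weight_freq (i : Fin d) (n m : ℕ) (hm : m ∈ Sn n) :
    weight i n (freq i n m) = (Pn n).coeff m := by
  unfold weight
  rw [Finset.sum_eq_single m]
  · simp
  · intro b _ hb
    rw [if_neg]
    intro h
    exact hb (freq_injective i n h).symm
  · intro h
    exact absurd hm h

lemma integrable_baseSum (i : Fin d) (n : ℕ) (f : EuclideanSpace ℝ (Fin d) → ℂ) :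
    Integrable f (baseSum i n) := by
  unfold baseSum
  rw [integrable_finsetSum_measure]
  intro m _
  exact integrable_dirac (by simp)

lemma integral_baseSum (i : Fin d) (n : ℕ) (f : EuclideanSpace ℝ (Fin d) → ℂ) :
    ∫ y, f y ∂(baseSum i n) = ∑ m ∈ Sn n, f (freq i n m) := by
  unfold baseSum
  rw [integral_finsetSum_measure (fun m _ => integrable_dirac (by simp))]
  apply Finset.sum_congr rfl
  intro m _
  rw [integral_dirac]

instance (i : Fin d) (n : ℕ) : IsFiniteMeasure (baseSum i n) := by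
  unfold baseSum
  refine ⟨?_⟩
  rw [Measure.finsetSum_apply]
  refine ENNReal.sum_lt_top.2 (fun m _ => ?_)
  simp

/-- `ν̂_n = ∑ c_m δ_{m step e_i}`. -/
def nuHat (i : Fin d) (n : ℕ) : ComplexRadon (EuclideanSpace ℝ (Fin d)) where
  base := baseSum i n
  dens := weight i n
  finite_on_compacts := fun _ _ => measure_lt_top _ _
  locallyIntegrable := (integrable_baseSum i n _).locallyIntegrable

lemma nuHat_eval (i : Fin d) (n : ℕ) (f : EuclideanSpace ℝ (Fin d) → ℂ) :
    (nuHat i n).eval f = ∑ m ∈ Sn n, f (freq i n m) * (Pn n).coeff m := by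
  unfold ComplexRadon.eval nuHat
  simp only
  rw [integral_baseSum]
  apply Finset.sum_congr rfl
  intro m hm
  rw [weight_freq i n m hm]

/-- The Dirac mass at `0`. -/
def diracZero : ComplexRadon (EuclideanSpace ℝ (Fin d)) where
  base := Measure.dirac 0
  dens := fun _ => 1
  finite_on_compacts := fun _ _ => measure_lt_top _ _
  locallyIntegrable := (integrable_const _).locallyIntegrable

lemma diracZero_eval (f : EuclideanSpace ℝ (Fin d) → ℂ) :
    (diracZero (d := d)).eval f = f 0 := by
  unfold ComplexRadon.eval diracZero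
  simp

/-- The zero measure. -/
def zeroMeasure : ComplexRadon (EuclideanSpace ℝ (Fin d)) where
  base := 0
  dens := fun _ => 0
  finite_on_compacts := fun _ _ => by simp
  locallyIntegrable := locallyIntegrable_zero

lemma isFT (i : Fin d) (n : ℕ) : IsFourierTransform (nu i n) (nuHat i n) := by
  intro g hg
  have hint := integrable_of_mem_K2 g hg
  refine ⟨integrable_baseSum i n _, ?_⟩
  rw [nuHat_eval]
  unfold ComplexRadon.eval nu
  simp only
  simp_rw [rho_eq_sum, Finset.mul_sum]
  rw [integral_finsetSum]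
  · apply Finset.sum_congr rfl
    intro m _
    rw [Real.fourierInv_eq', ← integral_mul_const]
    apply integral_congr_ae
    filter_upwards with x
    simp only [smul_eq_mul]
    push_cast
    ring
  · intro m _
    have h1 : Integrable (fun x : EuclideanSpace ℝ (Fin d) =>
        Complex.exp (((2 * π * inner ℝ x (freq i n m) : ℝ) : ℂ) * Complex.I) * g x) := by
      apply hint.bdd_mul (c := 1)
      · apply Continuous.aestronglyMeasurable
        fun_prop
      · filter_upwards with x
        rw [Complex.norm_exp_ofReal_mul_I]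
    have h2 := h1.const_mul ((Pn n).coeff m)
    refine h2.congr ?_
    filter_upwards with x
    ring

/-- **Main theorem.** On `ℝᵈ`, `d ≥ 1`, there is a sequence of Fourier transformable measures which
converges vaguely to `0` while its Fourier transforms converge vaguely to a nonzero measure. -/
theorem result (d : ℕ) (hd : 1 ≤ d) :
    ∃ (ν ν' : ℕ → ComplexRadon (EuclideanSpace ℝ (Fin d)))
      (zero μ : ComplexRadon (EuclideanSpace ℝ (Fin d))),
      (∀ n, IsFourierTransform (ν n) (ν' n)) ∧ zero.IsZero ∧ VagueTendsto ν zero ∧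
        VagueTendsto ν' μ ∧ ¬ μ.IsZero := by
  let i : Fin d := ⟨0, hd⟩
  refine ⟨nu i, nuHat i, zeroMeasure, diracZero, isFT i, ?_, ?_, ?_, ?_⟩
  · intro f _
    unfold ComplexRadon.eval zeroMeasure
    simp
  · intro f hf
    have hz : (zeroMeasure (d := d)).eval f = 0 := by
      unfold ComplexRadon.eval zeroMeasure
      simp
    rw [hz]
    have hfi : Integrable f := hf.1.integrable_of_hasCompactSupport hf.2
    obtain ⟨R, hR⟩ := hf.2.isCompact.isBounded.exists_norm_le
    have hbound : ∀ᶠ n : ℕ in atTop, ‖(nu i n).eval f‖ ≤ (1 / (n + 1 : ℝ)) * ∫ x, ‖f x‖ := by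
      filter_upwards [eventually_ge_atTop ⌈R⌉₊] with n hn
      have hRn : R ≤ n := (Nat.le_ceil R).trans (by exact_mod_cast hn)
      unfold ComplexRadon.eval nu
      simp only
      rw [← integral_const_mul]
      apply norm_integral_le_of_norm_le (hfi.norm.const_mul _)
      filter_upwards with x
      rw [norm_mul]
      by_cases hx : x ∈ tsupport f
      · have := rho_small i n x ((hR x hx).trans hRn)
        have h0 := norm_nonneg (f x)
        nlinarith
      · have : f x = 0 := image_eq_zero_of_notMem_tsupport hx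
        rw [this]
        simp
    have hlim : Tendsto (fun n : ℕ => (1 / (n + 1 : ℝ)) * ∫ x, ‖f x‖) atTop (𝓝 0) := by
      have := (tendsto_one_div_add_atTop_nhds_zero_nat (𝕜 := ℝ)).mul_const (∫ x, ‖f x‖)
      simpa using this
    exact squeeze_zero_norm' hbound hlim
  · intro f hf
    rw [diracZero_eval]
    obtain ⟨R, hR⟩ := hf.2.isCompact.isBounded.exists_norm_le
    apply tendsto_const_nhds.congr'
    filter_upwards [eventually_ge_atTop ⌈R⌉₊] with n hn
    have hRn : R ≤ n := (Nat.le_ceil R).trans (by exact_mod_cast hn)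
    rw [nuHat_eval, Finset.sum_eq_single 0]
    · have hfreq0 : freq i n 0 = 0 := by
        unfold freq
        simp
      rw [hfreq0]
      have : (Pn n).coeff 0 = 1 := by
        unfold Pn
        rw [poly_coeff _ _ _ (by positivity)]
        simp
      rw [this, mul_one]
    · intro m _ hm0
      by_cases hm : m < 16 * (n + 1) ^ 2
      · have : (Pn n).coeff m = 0 := by
          unfold Pn
          rw [poly_coeff _ _ _ hm, if_neg hm0]
        rw [this, mul_zero]
      · push Not at hm
        have hx : freq i n m ∉ tsupport f := by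
          intro hmem
          have h1 := hR _ hmem
          unfold freq at h1
          rw [PiLp.norm_single, Real.norm_eq_abs,
            abs_of_nonneg (mul_nonneg (Nat.cast_nonneg m) (step_pos n).le)] at h1
          have h2 : ((16 * (n + 1) ^ 2 : ℕ) : ℝ) * step n ≤ (m : ℝ) * step n := by
            have := (step_pos n).le
            gcongr
            try exact_mod_cast hm
          have h3 : ((16 * (n + 1) ^ 2 : ℕ) : ℝ) * step n = n + 1 := by
            unfold step
            push_cast
            field_simp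
          linarith
        rw [image_eq_zero_of_notMem_tsupport hx, zero_mul]
    · intro h0
      exfalso
      apply h0
      unfold Sn
      simp
  · intro hzero
    obtain ⟨f, hf1, hf2, hf3⟩ : ∃ f : EuclideanSpace ℝ (Fin d) → ℂ,
        Continuous f ∧ HasCompactSupport f ∧ f 0 = 1 := by
      refine ⟨fun x => ((max 0 (1 - ‖x‖) : ℝ) : ℂ), by fun_prop, ?_, by simp⟩
      apply HasCompactSupport.intro (isCompact_closedBall (0 : EuclideanSpace ℝ (Fin d)) 1)
      intro x hx
      rw [mem_closedBall_zero_iff, not_le] at hx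
      have : max 0 (1 - ‖x‖) = 0 := max_eq_left (by linarith)
      simp [this]
    have := hzero f ⟨hf1, hf2⟩
    rw [diracZero_eval, hf3] at this
    exact one_ne_zero this

end Pool.Agent.Results.MP_831e37_an.NullWithNonNullTransforms
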